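import Pool.Agent.Helper1.SQ.Defs

/-!
# Project SQ (MP_36c81c_nt): discrepancy modulo 30030
-/

set_option autoImplicit false

open Finset

namespace Pool.Agent.Helper40.SQ

open Pool.Agent.Helper1.SQ

/-- kernel check -/
def run : ℕ → ℕ → ℕ → Bool
  | 0, _, F => Nat.beq F 5760
  | n+1, A, F => Nat.ble (192*A) (1001*F + 3359) && (Nat.ble (1001*F) (192*A + 3552) &&
      run n (A+1) (F + bif Nat.beq (Nat.gcd (A+1) 30030) 1 then 1 else 0))

set_option maxRecDepth 100000 in
theorem run_all : run 30030 0 0 = true := by decide +kernel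

/-- number of `j ∈ (0, A]` coprime to `30030` -/
def F : ℕ → ℕ
  | 0 => 0
  | A+1 => F A + bif Nat.beq (Nat.gcd (A+1) 30030) 1 then 1 else 0

theorem F_succ (A : ℕ) : F (A+1) = F A + if Nat.Coprime (A+1) 30030 then 1 else 0 := by
  rw [F]
  congr 1
  by_cases h : Nat.Coprime (A+1) 30030
  · rw [if_pos h]
    have : Nat.beq (Nat.gcd (A+1) 30030) 1 = true := by
      rw [Nat.beq_eq]; exact h
    rw [this]; rfl
  · rw [if_neg h]
    have : Nat.beq (Nat.gcd (A+1) 30030) 1 = false := by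
      rw [← Bool.not_eq_true, Nat.beq_eq]; exact h
    rw [this]; rfl

theorem run_spec : ∀ n A : ℕ, run n A (F A) = true →
    F (A + n) = 5760 ∧ ∀ B, A ≤ B → B < A + n → 192 * B ≤ 1001 * F B + 3359 ∧
      1001 * F B ≤ 192 * B + 3552 := by
  intro n
  induction n with
  | zero =>
    intro A h
    rw [run, Nat.beq_eq] at h
    exact ⟨h, fun B h1 h2 => by omega⟩
  | succ n ih =>
    intro A h
    rw [run, Bool.and_eq_true, Bool.and_eq_true] at h
    obtain ⟨h1, h2, h3⟩ := h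
    have h4 := ih (A+1) (by rw [F]; exact h3)
    rw [show A + 1 + n = A + (n + 1) by ring] at h4
    refine ⟨h4.1, fun B hB1 hB2 => ?_⟩
    rcases hB1.eq_or_lt with rfl | hB
    · exact ⟨Nat.le_of_ble_eq_true h1, Nat.le_of_ble_eq_true h2⟩
    · exact h4.2 B hB hB2

theorem F_period : F 30030 = 5760 := by
  have := (run_spec 30030 0 run_all).1
  rwa [zero_add] at this

theorem F_add' (P : ℕ) (hP : P = 30030) (A : ℕ) : F (A + P) = F A + 5760 := by
  induction A with
  | zero =>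
    have h0 : F 0 = 0 := rfl
    rw [zero_add, h0, zero_add, hP]
    exact F_period
  | succ A ih =>
    have e1 : F (A + 1 + P) = F (A + P) + if Nat.Coprime (A + P + 1) 30030 then 1 else 0 := by
      rw [show A + 1 + P = (A + P) + 1 by ring]
      exact F_succ _
    have e2 : Nat.Coprime (A + P + 1) 30030 ↔ Nat.Coprime (A+1) 30030 := by
      rw [show A + P + 1 = (A + 1) + P by ring, hP]
      exact Nat.coprime_add_self_left
    rw [e1, F_succ A, ih]
    simp only [e2]
    ring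

theorem F_add (A : ℕ) : F (A + 30030) = F A + 5760 := F_add' 30030 rfl A

theorem F_bound (A : ℕ) : 192 * A ≤ 1001 * F A + 3359 ∧ 1001 * F A ≤ 192 * A + 3552 := by
  induction A using Nat.strong_induction_on with
  | _ A ih =>
    rcases Nat.lt_or_ge A 30030 with h | h
    · exact (run_spec 30030 0 run_all).2 A (Nat.zero_le _) (by omega)
    · obtain ⟨B, rfl⟩ := Nat.exists_eq_add_of_le' h
      have h1 := ih B (by omega)
      rw [F_add]
      omega

theorem F_card (A B : ℕ) (h : A ≤ B) :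
    F B = F A + ((Ioc A B).filter (fun j => Nat.Coprime j 30030)).card := by
  induction B, h using Nat.le_induction with
  | base => simp
  | succ B hAB ih =>
    have e1 : Ioc A (B + 1) = insert (B + 1) (Ioc A B) := by
      ext x
      rw [Finset.mem_insert, Finset.mem_Ioc, Finset.mem_Ioc]
      omega
    rw [F_succ, ih, e1, Finset.filter_insert]
    split_ifs with hc
    · rw [Finset.card_insert_of_notMem]
      · ring
      · simp
    · rfl

theorem count_eq (N H d : ℕ) (hd : 0 < d) (hc : Nat.Coprime d 30030) :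
    F ((N + H) / d) =
      F (N / d) + ((Ioc N (N + H)).filter (fun m => d ∣ m ∧ Nat.Coprime m 30030)).card := by
  rw [F_card (N / d) ((N + H) / d) (Nat.div_le_div_right (by omega))]
  congr 1
  refine Finset.card_bij (fun j _ => d * j) ?_ ?_ ?_
  · intro j hj
    rw [Finset.mem_filter, Finset.mem_Ioc] at hj ⊢
    obtain ⟨⟨h1, h2⟩, h3⟩ := hj
    refine ⟨⟨?_, ?_⟩, dvd_mul_right _ _, Nat.Coprime.mul_left hc h3⟩
    · rw [Nat.div_lt_iff_lt_mul hd] at h1
      rwa [mul_comm]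
    · rw [Nat.le_div_iff_mul_le hd] at h2
      rwa [mul_comm]
  · intro j _ j' _ h
    exact Nat.eq_of_mul_eq_mul_left hd h
  · intro m hm
    rw [Finset.mem_filter, Finset.mem_Ioc] at hm
    obtain ⟨⟨h1, h2⟩, ⟨j, rfl⟩, h3⟩ := hm
    refine ⟨j, ?_, rfl⟩
    rw [Finset.mem_filter, Finset.mem_Ioc]
    refine ⟨⟨?_, ?_⟩, Nat.Coprime.coprime_mul_left h3⟩
    · rw [Nat.div_lt_iff_lt_mul hd, mul_comm]
      exact h1
    · rw [Nat.le_div_iff_mul_le hd, mul_comm]
      exact h2

theorem F_real (M d : ℕ) (hd : 0 < d) :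
    -(3359 : ℝ) / 1001 - 192 / 1001 ≤ (F (M / d) : ℝ) - 192 / 1001 * ((M : ℝ) / d) ∧
      (F (M / d) : ℝ) - 192 / 1001 * ((M : ℝ) / d) ≤ 3552 / 1001 := by
  obtain ⟨h1, h2⟩ := F_bound (M / d)
  have h1' : (192 : ℝ) * ((M / d : ℕ) : ℝ) ≤ 1001 * (F (M / d) : ℝ) + 3359 := by exact_mod_cast h1
  have h2' : (1001 : ℝ) * (F (M / d) : ℝ) ≤ 192 * ((M / d : ℕ) : ℝ) + 3552 := by exact_mod_cast h2
  have hd0 : (0 : ℝ) < d := by exact_mod_cast hd
  have h3 : ((M / d : ℕ) : ℝ) ≤ (M : ℝ) / d := Nat.cast_div_le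
  have h4 : (M : ℝ) / d ≤ ((M / d : ℕ) : ℝ) + 1 := by
    rw [div_le_iff₀ hd0]
    have h5 : M < (M / d + 1) * d := by
      have := Nat.lt_div_mul_add hd (a := M)
      rw [add_mul, one_mul]
      exact this
    have h6 : (M : ℝ) < (((M / d : ℕ) : ℝ) + 1) * d := by exact_mod_cast h5
    exact h6.le
  constructor <;> linarith

theorem disc : Disc := by
  intro N H d hd hc
  have h1 := count_eq N H d hd hc
  set c := ((Ioc N (N + H)).filter (fun m => d ∣ m ∧ Nat.Coprime m 30030)).card with hcdef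
  have h1' : (F ((N + H) / d) : ℝ) = F (N / d) + c := by exact_mod_cast h1
  obtain ⟨a1, a2⟩ := F_real (N + H) d hd
  obtain ⟨b1, b2⟩ := F_real N d hd
  have h2 : (((N + H : ℕ) : ℝ)) / d = (N : ℝ) / d + (H : ℝ) / d := by push_cast; ring
  rw [h2] at a1 a2
  rw [abs_le]
  constructor <;> linarith

theorem cardB : CardB := by
  intro i1 i2 h4 h12
  have hle : 2 ^ i1 ≤ 2 ^ i2 := Nat.pow_le_pow_right (by norm_num) h12
  have h16 : 16 ≤ 2 ^ i1 := by
    calc 16 = 2 ^ 4 := by norm_num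
      _ ≤ 2 ^ i1 := Nat.pow_le_pow_right (by norm_num) h4
  have h1 := disc (2 ^ i1) (2 ^ i2 - 2 ^ i1) 1 one_pos (Nat.coprime_one_left _)
  have h2 : (PB i1 i2).card ≤ ((Ioc (2 ^ i1) (2 ^ i1 + (2 ^ i2 - 2 ^ i1))).filter
      (fun m => 1 ∣ m ∧ Nat.Coprime m 30030)).card := by
    apply Finset.card_le_card
    intro p hp
    unfold PB at hp
    rw [Finset.mem_filter, Finset.mem_Ioc] at hp ⊢
    obtain ⟨⟨hp1, hp2⟩, hpp⟩ := hp
    refine ⟨⟨hp1, by omega⟩, one_dvd _, ?_⟩
    rw [Nat.Prime.coprime_iff_not_dvd hpp]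
    intro hdvd
    have h3 : p ∣ 2 * (3 * (5 * (7 * (11 * 13)))) := by norm_num; exact hdvd
    rcases (Nat.Prime.dvd_mul hpp).1 h3 with h | h
    · have := Nat.le_of_dvd (by norm_num) h; omega
    rcases (Nat.Prime.dvd_mul hpp).1 h with h | h
    · have := Nat.le_of_dvd (by norm_num) h; omega
    rcases (Nat.Prime.dvd_mul hpp).1 h with h | h
    · have := Nat.le_of_dvd (by norm_num) h; omega
    rcases (Nat.Prime.dvd_mul hpp).1 h with h | h
    · have := Nat.le_of_dvd (by norm_num) h; omega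
    rcases (Nat.Prime.dvd_mul hpp).1 h with h | h
    · have := Nat.le_of_dvd (by norm_num) h; omega
    · have := Nat.le_of_dvd (by norm_num) h; omega
  have h2' : ((PB i1 i2).card : ℝ) ≤ ((((Ioc (2 ^ i1) (2 ^ i1 + (2 ^ i2 - 2 ^ i1))).filter
      (fun m => 1 ∣ m ∧ Nat.Coprime m 30030)).card : ℕ) : ℝ) := by exact_mod_cast h2
  rw [abs_le] at h1
  have h3 : (((2 ^ i2 - 2 ^ i1 : ℕ)) : ℝ) = 2 ^ i2 - 2 ^ i1 := by
    rw [Nat.cast_sub hle]; push_cast; ring
  rw [h3, Nat.cast_one, div_one] at h1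
  linarith [h1.2]

end Pool.Agent.Helper40.SQ
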